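import Mathlib
import Pool.Agent.H29.Cut1

open Set Cardinal

namespace Pool.Agent.Results.MP_e86704_lc.Uncountable

/-- `(A, B)` is a cut of the chain `T`. -/
def IsCut {T : Type} [LinearOrder T] (A B : Set T) : Prop :=
  A.Nonempty ∧ B.Nonempty ∧ (∀ a ∈ A, ∀ b ∈ B, a < b) ∧
  (∀ a ∈ A, ∃ a' ∈ A, a < a') ∧ (∀ b ∈ B, ∃ b' ∈ B, b' < b) ∧
  (A ∪ B = Set.univ ∨
    ∃ r : T, (∀ a ∈ A, a < r) ∧ (∀ b ∈ B, r < b) ∧ A ∪ {r} ∪ B = Set.univ)

/-- `C(T) ∩ (ω × ω)`: the pairs `(m, n)` such that some cut `(A, B)` has `cof A = ℵ_m` and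
`B` has coinitiality `ℵ_n`. -/
def chars (T : Type) [LinearOrder T] : Set (ℕ × ℕ) :=
  {p | ∃ A B : Set T, IsCut A B ∧ Order.cof A = ℵ_ (p.1 : Ordinal.{0}) ∧
    Order.cof (OrderDual B) = ℵ_ (p.2 : Ordinal.{0})}

/-- Any two nondegenerate closed bounded intervals are order-isomorphic. -/
def TwoHomogeneous (T : Type) [LinearOrder T] : Prop :=
  ∀ a b c d : T, a < b → c < d → Nonempty (Set.Icc a b ≃o Set.Icc c d)

/-- `C` is realizable for `X = ω`. -/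
def Realizable (C : Set (ℕ × ℕ)) : Prop :=
  ∃ (T : Type) (_ : LinearOrder T), DenselyOrdered T ∧ TwoHomogeneous T ∧ chars T = C

open Pool.Agent.H29.Cut1

theorem twoHom (K : Type) [Field K] [LinearOrder K] [IsStrictOrderedRing K] :
    TwoHomogeneous K := by
  intro a b c d hab hcd
  have h1 : 0 < b - a := sub_pos.2 hab
  have h2 : 0 < d - c := sub_pos.2 hcd
  have hk : 0 < (d - c) / (b - a) := div_pos h2 h1
  let e : K ≃o K := ((OrderIso.addRight (-a)).trans (OrderIso.mulRight₀ _ hk)).trans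
    (OrderIso.addRight c)
  have he : ∀ x, e x = (x + -a) * ((d - c) / (b - a)) + c := fun x => rfl
  have ha : e a = c := by rw [he]; ring
  have hb : e b = d := by rw [he]; field_simp; ring
  refine ⟨(StrictMono.orderIso (fun x : Icc a b => e x) (fun x y h => e.strictMono h)).trans
    (OrderIso.setCongr _ _ ?_)⟩
  ext y
  constructor
  · rintro ⟨x, rfl⟩
    exact ⟨ha ▸ e.monotone x.2.1, hb ▸ e.monotone x.2.2⟩
  · intro hy
    refine ⟨⟨e.symm y, ?_, ?_⟩, e.apply_symm_apply y⟩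
    · rw [e.le_symm_apply, ha]; exact hy.1
    · rw [e.symm_apply_le, hb]; exact hy.2

noncomputable def kap (n : ℕ) : Cardinal.{0} := ℵ_ ((n + 1 : ℕ) : Ordinal.{0})

theorem kap_gt (n : ℕ) : ℵ₀ < kap n := by
  rw [kap, ← aleph_zero, aleph_lt_aleph]
  exact_mod_cast Nat.succ_pos n

theorem kap_inj {m n : ℕ} (h : kap m = kap n) : m = n := by
  have := aleph.injective h
  have h2 : m + 1 = n + 1 := by exact_mod_cast this
  omega

theorem kap_reg (n : ℕ) : (kap n).IsRegular := by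
  have := isRegular_aleph_add_one (n : Ordinal.{0})
  rw [kap]
  push_cast
  simpa using this

theorem mem_chars_iff (T : Type) [LinearOrder T] (n : ℕ) :
    (n + 1, n + 1) ∈ chars T ↔ Gap1 T (kap n) := by
  constructor
  · rintro ⟨A, B, ⟨-, -, hAB, -, -, hor⟩, h1, h2⟩
    refine ⟨A, B, hAB, HC.of_cof h1, HC.of_cof (X := Tᵒᵈ) (A := B) h2, ?_, ?_⟩
    · intro x hA hB
      rcases hor with h | ⟨r, hr1, hr2, h⟩
      · have : x ∈ A ∪ B := h ▸ mem_univ x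
        exact absurd this (by simp [hA, hB])
      · have : x ∈ A ∪ {r} ∪ B := h ▸ mem_univ x
        have hx : x = r := by simpa [hA, hB] using this
        exact hx ▸ ⟨hr1, hr2⟩
    · intro x y hxA hxB hyA hyB
      rcases hor with h | ⟨r, hr1, hr2, h⟩
      · have : x ∈ A ∪ B := h ▸ mem_univ x
        exact absurd this (by simp [hxA, hxB])
      · have h3 : x ∈ A ∪ {r} ∪ B := h ▸ mem_univ x
        have h4 : y ∈ A ∪ {r} ∪ B := h ▸ mem_univ y
        have hx : x = r := by simpa [hxA, hxB] using h3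
        have hy : y = r := by simpa [hyA, hyB] using h4
        rw [hx, hy]
  · rintro ⟨A, B, hAB, hA, hB, hbet, huniq⟩
    refine ⟨A, B, ⟨hA.nonempty (kap_gt n), hB.nonempty (kap_gt n), hAB,
      fun a ha => hA.noMax (kap_gt n) ha, fun b hb => hB.noMin (kap_gt n) hb, ?_⟩,
      hA.cof_eq, HC.cof_eq (X := Tᵒᵈ) hB⟩
    by_cases h : A ∪ B = Set.univ
    · exact Or.inl h
    · right
      obtain ⟨r, hr⟩ := (ne_univ_iff_exists_notMem _).1 h
      have hrA : r ∉ A := fun h => hr (Or.inl h)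
      have hrB : r ∉ B := fun h => hr (Or.inr h)
      refine ⟨r, (hbet r hrA hrB).1, (hbet r hrA hrB).2, eq_univ_of_forall fun x => ?_⟩
      by_cases hxA : x ∈ A
      · exact Or.inl (Or.inl hxA)
      by_cases hxB : x ∈ B
      · exact Or.inr hxB
      exact Or.inl (Or.inr (huniq x r hxA hxB hrA hrB))

abbrev O (n : ℕ) : Type := (kap n).ord.ToType

theorem HC_O (n : ℕ) : HC (kap n) (Set.univ : Set (O n)) := by
  apply HC.of_cof
  rw [Order.cof_eq_of_isCofinal IsCofinal.univ, Ordinal.cof_toType, (kap_reg n).cof_ord]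

instance (n : ℕ) : Nonempty (O n) := ⟨((HC_O n).nonempty (kap_gt n)).some⟩

abbrev Blk (S : Set ℕ) (n : ℕ) : Type := O n ⊕ₗ ({_x : O n // n ∈ S})ᵒᵈ

abbrev Ix (S : Set ℕ) : Type := Σₗ n : ℕ, Blk S n

def lft (S : Set ℕ) (n : ℕ) (x : O n) : Ix S := toLex ⟨n, toLex (Sum.inl x)⟩

def rgt (S : Set ℕ) (n : ℕ) (h : n ∈ S) (x : O n) : Ix S :=
  toLex ⟨n, toLex (Sum.inr (OrderDual.toDual ⟨x, h⟩))⟩

def idx {S : Set ℕ} (x : Ix S) : ℕ := (ofLex x).1

theorem Ix.cases {S : Set ℕ} (z : Ix S) :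
    (∃ x, z = lft S (idx z) x) ∨ ∃ h x, z = rgt S (idx z) h x := by
  obtain ⟨n, y | y⟩ := z
  · exact Or.inl ⟨y, rfl⟩
  · exact Or.inr ⟨y.2, y.1, rfl⟩

theorem lt_of_idx {S : Set ℕ} {x y : Ix S} (h : idx x < idx y) : x < y :=
  Sigma.Lex.lt_def.2 (Or.inl h)

theorem idx_mono {S : Set ℕ} {x y : Ix S} (h : x ≤ y) : idx x ≤ idx y := by
  by_contra hlt
  push Not at hlt
  exact absurd (lt_of_idx hlt) (not_lt.2 h)

theorem lft_lt {S : Set ℕ} {n : ℕ} {x y : O n} (h : x < y) : lft S n x < lft S n y :=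
  Sigma.Lex.lt_def.2 (Or.inr ⟨rfl, Sum.Lex.inl_lt_inl_iff.2 h⟩)

theorem rgt_lt {S : Set ℕ} {n : ℕ} (hn : n ∈ S) {x y : O n} (h : x < y) :
    rgt S n hn y < rgt S n hn x :=
  Sigma.Lex.lt_def.2 (Or.inr ⟨rfl, Sum.Lex.inr_lt_inr_iff.2 h⟩)

theorem lft_lt_rgt {S : Set ℕ} {n : ℕ} (hn : n ∈ S) (x y : O n) : lft S n x < rgt S n hn y :=
  Sigma.Lex.lt_def.2 (Or.inr ⟨rfl, Sum.Lex.inl_lt_inr _ _⟩)

theorem lft_mono {S : Set ℕ} {n : ℕ} : StrictMono (lft S n) := fun _ _ h => lft_lt h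

theorem rgt_anti {S : Set ℕ} {n : ℕ} (hn : n ∈ S) : StrictAnti (rgt S n hn) :=
  fun _ _ h => rgt_lt hn h

theorem Ix.cases' {S : Set ℕ} {n : ℕ} (z : Ix S) (hz : idx z = n) :
    (∃ x, z = lft S n x) ∨ ∃ h x, z = rgt S n h x := by
  subst hz; exact Ix.cases z

instance (S : Set ℕ) : Nonempty (Ix S) := ⟨lft S 0 (Classical.arbitrary _)⟩

theorem not_cof (S : Set ℕ) (n : ℕ) : ¬ HC (kap n) (Set.univ : Set (Ix S)) := by
  intro h
  obtain ⟨a, -, ha⟩ := h.countable_bdd (kap_gt n)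
    (J := range fun k => lft S k (Classical.arbitrary _)) (subset_univ _) (countable_range _)
  have := idx_mono (ha _ ⟨idx a + 1, rfl⟩).le
  exact absurd this (by show ¬ idx a + 1 ≤ idx a; omega)

theorem min_lft {S : Set ℕ} {B : Set (Ix S)} {m : ℕ} (hm : ∀ b ∈ B, m ≤ idx b) {x : O m}
    (hx : lft S m x ∈ B) : ∃ z ∈ B, ∀ b ∈ B, z ≤ b := by
  obtain ⟨x0, hx0, hmin⟩ := WellFounded.has_min (wellFounded_lt (α := O m))
    {x | lft S m x ∈ B} ⟨x, hx⟩
  refine ⟨lft S m x0, hx0, fun b hb => ?_⟩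
  rcases (hm b hb).eq_or_lt with h | h
  · rcases Ix.cases' b h.symm with ⟨y, rfl⟩ | ⟨hS, y, rfl⟩
    · exact lft_mono.monotone (not_lt.1 (hmin y hb))
    · exact (lft_lt_rgt hS _ _).le
  · exact (lt_of_idx (x := lft S m x0) h).le

theorem not_coin (S : Set ℕ) (n : ℕ) : ¬ HD (kap n) (Set.univ : Set (Ix S)) := by
  intro h
  obtain ⟨z, -, hz⟩ := min_lft (S := S) (B := Set.univ) (m := 0) (fun _ _ => Nat.zero_le _)
    (x := Classical.arbitrary _) (mem_univ _)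
  obtain ⟨a, -, ha⟩ := h.noMin (kap_gt n) (mem_univ z)
  exact absurd ha (not_lt.2 (hz a (mem_univ a)))

theorem HC_lft {S : Set ℕ} {m : ℕ} {A : Set (Ix S)} (h1 : ∀ x, lft S m x ∈ A)
    (h2 : ∀ a ∈ A, ∃ x, a ≤ lft S m x) : HC (kap m) A :=
  (HC_O m).map (lft S m) lft_mono (fun x _ => h1 x) fun b hb => by
    obtain ⟨x, hx⟩ := h2 b hb
    exact ⟨x, mem_univ x, hx⟩

theorem gap_Ix (S : Set ℕ) (n : ℕ) : Gap0 (Ix S) (kap n) ↔ n ∈ S := by
  classical
  constructor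
  · rintro ⟨A, hAB, hA, hB⟩
    obtain ⟨b0, hb0⟩ := hB.nonempty (kap_gt n)
    have hex : ∃ k, ∃ b, b ∉ A ∧ idx b = k := ⟨_, b0, hb0, rfl⟩
    obtain ⟨b, hb, hbm⟩ := Nat.find_spec hex
    have hm : ∀ b ∈ Aᶜ, Nat.find hex ≤ idx b := fun b hb => Nat.find_min' hex ⟨b, hb, rfl⟩
    generalize Nat.find hex = m at hbm hm
    have hl : ∀ x, lft S m x ∈ A := by
      intro x
      by_contra hx
      obtain ⟨z, hz, hzmin⟩ := min_lft hm (x := x) hx
      obtain ⟨a, ha, haz⟩ := hB.noMin (kap_gt n) hz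
      exact absurd haz (not_lt.2 (hzmin a ha))
    rcases Ix.cases' b hbm with ⟨y, rfl⟩ | ⟨hS, y, rfl⟩
    · exact absurd (hl y) hb
    have hidx : ∀ a ∈ A, idx a ≤ m := fun a ha => hbm ▸ idx_mono (hAB a ha _ hb).le
    have hr : ∀ x, rgt S m hS x ∉ A := by
      intro x hx
      obtain ⟨x0, hx0, hmin⟩ := WellFounded.has_min (wellFounded_lt (α := O m))
        {x | rgt S m hS x ∈ A} ⟨x, hx⟩
      obtain ⟨a, ha, hlt⟩ := hA.noMax (kap_gt n) hx0
      rcases (hidx a ha).eq_or_lt with h | h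
      · rcases Ix.cases' a h with ⟨y, rfl⟩ | ⟨hS', y, rfl⟩
        · exact absurd hlt (not_lt.2 (lft_lt_rgt hS _ _).le)
        · exact absurd hlt (not_lt.2 ((rgt_anti hS).antitone (not_lt.1 (hmin y ha))))
      · exact absurd hlt (not_lt.2 (lt_of_idx h).le)
    have hA' : HC (kap m) A := HC_lft hl fun a ha => by
      rcases (hidx a ha).eq_or_lt with h | h
      · rcases Ix.cases' a h with ⟨y, rfl⟩ | ⟨hS', y, rfl⟩
        · exact ⟨y, le_rfl⟩
        · exact absurd ha (hr y)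
      · exact ⟨Classical.arbitrary _, (lt_of_idx h).le⟩
    rw [kap_inj (hA.unique hA')]
    exact hS
  · intro hn
    have hd : ∀ b : Ix S, (¬ ∃ x, b ≤ lft S n x) → ∃ x, rgt S n hn x ≤ b := by
      intro b hb
      rcases lt_trichotomy (idx b) n with h | h | h
      · exact absurd ⟨Classical.arbitrary _, (lt_of_idx h).le⟩ hb
      · rcases Ix.cases' b h with ⟨y, rfl⟩ | ⟨hS', y, rfl⟩
        · exact absurd ⟨y, le_rfl⟩ hb
        · exact ⟨y, le_rfl⟩
      · exact ⟨Classical.arbitrary _, (lt_of_idx (x := rgt S n hn _) h).le⟩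
    refine ⟨{a | ∃ x, a ≤ lft S n x}, ?_, HC_lft (fun x => ⟨x, le_rfl⟩) fun a ha => ha, ?_⟩
    · rintro a ⟨x, hx⟩ b hb
      obtain ⟨y, hy⟩ := hd b hb
      exact hx.trans_lt ((lft_lt_rgt hn x y).trans_le hy)
    · refine HC.map (Y := (Ix S)ᵒᵈ) (HC_O n) (fun x => OrderDual.toDual (rgt S n hn x))
        (fun x y h => rgt_lt hn h) (fun x _ => ?_) fun b hb => ?_
      · rintro ⟨y, hy⟩
        exact absurd (lft_lt_rgt hn y x) (not_lt.2 hy)
      · obtain ⟨y, hy⟩ := hd b hb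
        exact ⟨y, mem_univ y, hy⟩

theorem diag (S : Set ℕ) (n : ℕ) : (n + 1, n + 1) ∈ chars (H (H (Ix S))) ↔ n ∈ S := by
  rw [mem_chars_iff, ← gap_Ix]
  constructor
  · intro h
    rcases gap_down (kap_gt n) h with h | h
    · exact absurd (cof_down (kap_gt n) h) (not_coin S n)
    · rcases gap_down (kap_gt n) h.gap1 with h | h
      · exact absurd h (not_cof S n)
      · exact h
  · intro h
    exact (gap_up (kap_gt n) (gap_up (kap_gt n) h)).gap1

theorem result :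
    (∀ S : Set ℕ, ∃ C : Set (ℕ × ℕ), Realizable C ∧ ∀ n : ℕ, (n + 1, n + 1) ∈ C ↔ n ∈ S) ∧
    ¬ Set.Countable {C : Set (ℕ × ℕ) | Realizable C} := by
  have h1 : ∀ S : Set ℕ, ∃ C : Set (ℕ × ℕ), Realizable C ∧
      ∀ n : ℕ, (n + 1, n + 1) ∈ C ↔ n ∈ S := fun S =>
    ⟨chars (H (H (Ix S))), ⟨H (H (Ix S)), inferInstance, inferInstance, twoHom _, rfl⟩, diag S⟩
  refine ⟨h1, fun hc => ?_⟩
  have h2 : (Set.univ : Set (Set ℕ)).Countable := by
    refine (hc.image fun C => {n | (n + 1, n + 1) ∈ C}).mono fun S _ => ?_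
    obtain ⟨C, hC, hS⟩ := h1 S
    exact ⟨C, hC, Set.ext hS⟩
  have h3 : Countable (Set ℕ) := countable_univ_iff.1 h2
  obtain ⟨f, hf⟩ := exists_surjective_nat (Set ℕ)
  exact Function.cantor_surjective f hf

end Pool.Agent.Results.MP_e86704_lc.Uncountable
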